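import Pool.Agent.Helper86.AN.Stmts

/-! MP_4042d8_co: module CON (contraction of `S`). -/

set_option autoImplicit false

namespace Pool.Agent.Helper42.AN

open Pool.Agent.Helper86.AN Finset

/-- removing a pair of partners -/
theorem con_erase {V : Type} [DecidableEq V] {S : Finset V} {w : V → V} {x : V}
    (h : InvOn S w) (hx : x ∈ S) : InvOn ((S.erase x).erase (w x)) w := by
  intro v hv
  rw [mem_erase, mem_erase] at hv
  obtain ⟨h1, h2, h3⟩ := hv
  obtain ⟨a1, a2, a3⟩ := h v h3
  obtain ⟨b1, b2, b3⟩ := h x hx
  refine ⟨?_, a2, a3⟩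
  rw [mem_erase, mem_erase]
  refine ⟨?_, ?_, a1⟩
  · intro h4
    apply h2
    rw [← a2, h4, b2]
  · intro h4
    apply h1
    rw [← a2, h4]

theorem con_sdiff {V : Type} [DecidableEq V] {A S : Finset V} {x y : V} (hx : x ∈ S)
    (hy : y ∈ S) : ((A.erase x).erase y) \ ((S.erase x).erase y) = A \ S := by
  ext v
  simp only [mem_sdiff, mem_erase]
  constructor
  · rintro ⟨⟨h1, h2, h3⟩, h4⟩
    exact ⟨h3, fun h5 => h4 ⟨h1, h2, h5⟩⟩
  · rintro ⟨h1, h2⟩
    refine ⟨⟨?_, ?_, h1⟩, fun h => h2 h.2.2⟩
    · rintro rfl; exact h2 hy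
    · rintro rfl; exact h2 hx

theorem con_main {V : Type} [DecidableEq V] : ∀ (n : ℕ) (A S : Finset V) (m w : V → V),
    S.card = n → S ⊆ A → InvOn A m → InvOn S w →
    ∃ m' : V → V, InvOn (A \ S) m' ∧ ∀ c : V → Bool, Bi (A \ S) m' c →
      ∃ c' : V → Bool, (∀ v ∈ A \ S, c' v = c v) ∧ Bi A m c' ∧ Bi S w c' := by
  intro n
  induction n using Nat.strong_induction_on with
  | _ n ih =>
  intro A S m w hn hSA hm hw
  rcases S.eq_empty_or_nonempty with h0 | ⟨x, hx⟩
  · subst h0
    rw [sdiff_empty]
    exact ⟨m, hm, fun c hc => ⟨c, fun _ _ => rfl, hc, fun v hv => absurd hv (notMem_empty v)⟩⟩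
  · obtain ⟨hyS, hyx, hne⟩ := hw x hx
    obtain ⟨y, hy⟩ : ∃ y, y = w x := ⟨_, rfl⟩
    rw [← hy] at hyS hyx hne
    have hcard : ((S.erase x).erase y).card < n := by
      rw [← hn]
      have h1 : ((S.erase x).erase y).card ≤ (S.erase x).card := card_le_card (erase_subset _ _)
      have h2 : (S.erase x).card < S.card := card_erase_lt_of_mem hx
      exact lt_of_le_of_lt h1 h2
    have hw0 : InvOn ((S.erase x).erase y) w := by rw [hy]; exact con_erase hw hx
    have hsub : (S.erase x).erase y ⊆ (A.erase x).erase y :=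
      erase_subset_erase _ (erase_subset_erase _ hSA)
    have hsd : ((A.erase x).erase y) \ ((S.erase x).erase y) = A \ S := con_sdiff hx hyS
    have hxA := hSA hx
    have hyA := hSA hyS
    obtain ⟨hmxA, hmx2, hmxn⟩ := hm x hxA
    obtain ⟨hmyA, hmy2, hmyn⟩ := hm y hyA
    have hnx : ∀ v ∈ A \ S, v ≠ x := by
      intro v hv h
      rw [h] at hv
      exact (mem_sdiff.mp hv).2 hx
    have hny : ∀ v ∈ A \ S, v ≠ y := by
      intro v hv h
      rw [h] at hv
      exact (mem_sdiff.mp hv).2 hyS
    have hwmem : ∀ v ∈ S, v ≠ x → v ≠ y → w v ≠ x ∧ w v ≠ y := by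
      intro v hv h1 h2
      obtain ⟨_, a2, _⟩ := hw v hv
      constructor
      · intro h4
        apply h2
        rw [← a2, h4, ← hy]
      · intro h4
        apply h1
        rw [← a2, h4, hyx]
    by_cases hxy : m x = y
    · have hm0 : InvOn ((A.erase x).erase y) m := by rw [← hxy]; exact con_erase hm hxA
      obtain ⟨m', hm', H⟩ := ih _ hcard _ _ m w rfl hsub hm0 hw0
      rw [hsd] at hm' H
      refine ⟨m', hm', ?_⟩
      intro c hc
      obtain ⟨c0, h1, h2, h3⟩ := H c hc
      have hmyx : m y = x := by rw [← hxy, hmx2]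
      let c' : V → Bool := fun v => if v = x then true else if v = y then false else c0 v
      have cx : c' x = true := by simp only [c', if_true]
      have cy : c' y = false := by simp only [c', if_neg hne, if_true]
      have co : ∀ v, v ≠ x → v ≠ y → c' v = c0 v := by
        intro v a b; simp only [c', if_neg a, if_neg b]
      refine ⟨c', ?_, ?_, ?_⟩
      · intro v hv
        rw [co v (hnx v hv) (hny v hv)]
        exact h1 v hv
      · intro v hv
        by_cases hvx : v = x
        · rw [hvx, hxy, cx, cy]; rfl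
        · by_cases hvy : v = y
          · rw [hvy, hmyx, cx, cy]; rfl
          · have hv0 : v ∈ (A.erase x).erase y := by
              rw [mem_erase, mem_erase]; exact ⟨hvy, hvx, hv⟩
            obtain ⟨k1, _, _⟩ := hm0 v hv0
            rw [mem_erase, mem_erase] at k1
            rw [co v hvx hvy, co _ k1.2.1 k1.1]
            exact h2 v hv0
      · intro v hv
        by_cases hvx : v = x
        · rw [hvx, ← hy, cx, cy]; rfl
        · by_cases hvy : v = y
          · rw [hvy, hyx, cx, cy]; rfl
          · have hv0 : v ∈ (S.erase x).erase y := by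
              rw [mem_erase, mem_erase]; exact ⟨hvy, hvx, hv⟩
            obtain ⟨k1, k2⟩ := hwmem v hv hvx hvy
            rw [co v hvx hvy, co _ k1 k2]
            exact h3 v hv0
    · have hx'y : m x ≠ y := hxy
      have hy'x : m y ≠ x := by
        intro h; apply hxy; rw [← h, hmy2]
      have hx'y' : m x ≠ m y := by
        intro h
        apply hne
        rw [← hmx2, ← hmy2, h]
      let m1 : V → V := fun v => if v = m x then m y else if v = m y then m x else m v
      have m1x : m1 (m x) = m y := by simp only [m1, if_true]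
      have m1y : m1 (m y) = m x := by simp only [m1, if_neg hx'y'.symm, if_true]
      have m1o : ∀ v, v ≠ m x → v ≠ m y → m1 v = m v := by
        intro v a b; simp only [m1, if_neg a, if_neg b]
      have hxA0 : m x ∈ (A.erase x).erase y := by
        rw [mem_erase, mem_erase]; exact ⟨hx'y, hmxn, hmxA⟩
      have hyA0 : m y ∈ (A.erase x).erase y := by
        rw [mem_erase, mem_erase]; exact ⟨hmyn, hy'x, hmyA⟩
      have hother : ∀ v ∈ A, v ≠ x → v ≠ y → v ≠ m x → v ≠ m y →
          m v ≠ x ∧ m v ≠ y ∧ m v ≠ m x ∧ m v ≠ m y := by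
        intro v hv a1 a2 a3 a4
        obtain ⟨_, b2, _⟩ := hm v hv
        refine ⟨?_, ?_, ?_, ?_⟩
        · intro h; apply a3; rw [← b2, h]
        · intro h; apply a4; rw [← b2, h]
        · intro h; apply a1; rw [← b2, h, hmx2]
        · intro h; apply a2; rw [← b2, h, hmy2]
      have hm0 : InvOn ((A.erase x).erase y) m1 := by
        intro v hv
        by_cases hvx : v = m x
        · rw [hvx, m1x, m1y]
          exact ⟨hyA0, rfl, hx'y'.symm⟩
        · by_cases hvy : v = m y
          · rw [hvy, m1y, m1x]
            exact ⟨hxA0, rfl, hx'y'⟩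
          · rw [mem_erase, mem_erase] at hv
            obtain ⟨v1, v2, v3⟩ := hv
            obtain ⟨k1, k2, k3, k4⟩ := hother v v3 v2 v1 hvx hvy
            obtain ⟨b1, b2, b3⟩ := hm v v3
            rw [m1o v hvx hvy, m1o _ k3 k4]
            refine ⟨?_, b2, b3⟩
            rw [mem_erase, mem_erase]
            exact ⟨k2, k1, b1⟩
      obtain ⟨m', hm', H⟩ := ih _ hcard _ _ m1 w rfl hsub hm0 hw0
      rw [hsd] at hm' H
      refine ⟨m', hm', ?_⟩
      intro c hc
      obtain ⟨c0, h1, h2, h3⟩ := H c hc
      let c' : V → Bool := fun v => if v = x then !(c0 (m x)) else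
        if v = y then !(c0 (m y)) else c0 v
      have cx : c' x = !(c0 (m x)) := by simp only [c', if_true]
      have cy : c' y = !(c0 (m y)) := by simp only [c', if_neg hne, if_true]
      have co : ∀ v, v ≠ x → v ≠ y → c' v = c0 v := by
        intro v a b; simp only [c', if_neg a, if_neg b]
      have hc1 : c0 (m y) = !(c0 (m x)) := by
        have := h2 (m x) hxA0
        rw [m1x] at this
        exact this
      refine ⟨c', ?_, ?_, ?_⟩
      · intro v hv
        rw [co v (hnx v hv) (hny v hv)]
        exact h1 v hv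
      · intro v hv
        by_cases hvx : v = x
        · rw [hvx, cx, co _ hmxn hx'y, Bool.not_not]
        · by_cases hvy : v = y
          · rw [hvy, cy, co _ hy'x hmyn, Bool.not_not]
          · by_cases hvx' : v = m x
            · rw [hvx', hmx2, cx, co _ hmxn hx'y]
            · by_cases hvy' : v = m y
              · rw [hvy', hmy2, cy, co _ hy'x hmyn]
              · obtain ⟨k1, k2, k3, k4⟩ := hother v hv hvx hvy hvx' hvy'
                have hv0 : v ∈ (A.erase x).erase y := by
                  rw [mem_erase, mem_erase]; exact ⟨hvy, hvx, hv⟩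
                rw [co v hvx hvy, co _ k1 k2]
                have := h2 v hv0
                rw [m1o v hvx' hvy'] at this
                exact this
      · intro v hv
        by_cases hvx : v = x
        · rw [hvx, ← hy, cx, cy, hc1]
        · by_cases hvy : v = y
          · rw [hvy, hyx, cx, cy, hc1, Bool.not_not]
          · have hv0 : v ∈ (S.erase x).erase y := by
              rw [mem_erase, mem_erase]; exact ⟨hvy, hvx, hv⟩
            obtain ⟨k1, k2⟩ := hwmem v hv hvx hvy
            rw [co v hvx hvy, co _ k1 k2]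
            exact h3 v hv0

theorem st_CON : ST_CON := by
  intro V _ _ A S m w hSA hm hw
  exact con_main _ A S m w rfl hSA hm hw

end Pool.Agent.Helper42.AN
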