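import Pool.Agent.Helper86.AN.Stmts

/-! MP_4042d8_co: module RED (reduction principle). -/

set_option autoImplicit false

namespace Pool.Agent.Helper42.AN

open Pool.Agent.Helper86.AN Finset

theorem st_RED (hCON : ST_CON) (hUNI : ST_UNI) : ST_RED := by
  intro V _ _ s A S m w hSA hsA hsS hm hw hb hG
  obtain ⟨m', hm', H⟩ := hCON V A S m w hSA hm hw
  obtain ⟨c, hc1, hc2⟩ := hG m' hm'
  obtain ⟨c', h1, h2, h3⟩ := H c hc1
  exact ⟨c', h2, hUNI V s A S c' c hSA hsA hsS (hb c' h3) hc2 h1⟩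

end Pool.Agent.Helper42.AN
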