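import Pool.Agent.Helper86.AN.Stmts

/-! MP_4042d8_co: module UNI (union of two balanced parts). -/

set_option autoImplicit false

namespace Pool.Agent.Helper42.AN

open Pool.Agent.Helper86.AN Finset

theorem st_UNI : ST_UNI := by
  classical
  intro V _ _ s A S c c' hSA hsA hsS hb1 hb2 hcc
  obtain ⟨φ1, h1⟩ := hb1
  obtain ⟨φ2, h2⟩ := hb2
  let φ : V → V := fun v => if v ∈ S then φ1 v else φ2 v
  have p1 : ∀ v, v ∈ S → φ v = φ1 v := by
    intro v hv; simp only [φ, if_pos hv]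
  have p2 : ∀ v, v ∉ S → φ v = φ2 v := by
    intro v hv; simp only [φ, if_neg hv]
  have hms : ∀ v ∈ A, v ∉ S → v ∈ A \ S := fun v a b => mem_sdiff.mpr ⟨a, b⟩
  refine ⟨φ, ?_⟩
  intro v hv
  by_cases hS : v ∈ S
  · obtain ⟨a1, a2, a3, a4⟩ := h1 v hS
    rw [p1 v hS, p1 _ a1]
    refine ⟨hSA a1, a2, a3, ?_⟩
    intro w hw hcw
    by_cases hwS : w ∈ S
    · rw [p1 w hwS]
      exact a4 w hwS hcw
    · rw [p2 w hwS]
      have h3 := (mem_sdiff.mp (h2 w (hms w hw hwS)).1).2
      constructor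
      · intro h
        exact absurd (h ▸ (hsS v).mpr hS) hwS
      · intro h
        exact absurd (h ▸ (hsS (φ1 v)).mpr a1) h3
  · obtain ⟨a1, a2, a3, a4⟩ := h2 v (hms v hv hS)
    have b1 := mem_sdiff.mp a1
    rw [p2 v hS, p2 _ b1.2]
    refine ⟨b1.1, a2, ?_, ?_⟩
    · rw [hcc _ a1, hcc _ (hms v hv hS)]
      exact a3
    · intro w hw hcw
      by_cases hwS : w ∈ S
      · rw [p1 w hwS]
        have h3 := (h1 w hwS).1
        constructor
        · intro h
          exact absurd ((hsS v).mp (h ▸ hwS)) hS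
        · intro h
          exact absurd ((hsS (φ2 v)).mp (h ▸ h3)) b1.2
      · rw [p2 w hwS]
        refine a4 w (hms w hw hwS) ?_
        rw [← hcc _ (hms v hv hS), ← hcc _ (hms w hw hwS)]
        exact hcw

end Pool.Agent.Helper42.AN
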